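import Pool.Agent.U398.MV.Stm3

/-! Project MV3, package PM: moments of prime polynomials. -/

set_option autoImplicit false
set_option maxHeartbeats 4000000

namespace Pool.Agent.U504.MV3.PM

open MeasureTheory Complex Finset
open Pool.Agent.U398.MV

noncomputable section

def P (X : ℕ) : Finset ℕ := (Finset.Icc 1 X).filter Nat.Prime

def W (X j : ℕ) : Finset (Fin j → ℕ) := Fintype.piFinset fun _ : Fin j => P X

def Nf {j : ℕ} (f : Fin j → ℕ) : ℕ := ∏ i, f i

def cf (α : ℕ → ℂ) {j : ℕ} (f : Fin j → ℕ) : ℂ := ∏ i, α (f i)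

def w (α : ℕ → ℂ) {j : ℕ} (f : Fin j → ℕ) : ℝ := ∏ i, (‖α (f i)‖ ^ 2 / (f i : ℝ))

def zz (n : ℕ) (t : ℝ) : ℂ := (n : ℂ) ^ (-(1 / 2 + t * I))

theorem zz_mul (a b : ℕ) (t : ℝ) : zz (a * b) t = zz a t * zz b t := by
  unfold zz
  push_cast
  exact natCast_mul_natCast_cpow a b _

theorem zz_one (t : ℝ) : zz 1 t = 1 := by
  unfold zz
  simp

theorem zz_prod {ι : Type} (s : Finset ι) (f : ι → ℕ) (t : ℝ) :
    zz (∏ i ∈ s, f i) t = ∏ i ∈ s, zz (f i) t := by
  classical
  induction s using Finset.induction_on with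
  | empty => simp [zz_one]
  | insert a s ha ih => rw [prod_insert ha, prod_insert ha, zz_mul, ih]

theorem Ap_eq (X : ℕ) (α : ℕ → ℂ) (t : ℝ) : Ap X α t = ∑ p ∈ P X, α p * zz p t := rfl

theorem Ap_pow (X : ℕ) (α : ℕ → ℂ) (t : ℝ) (j : ℕ) :
    Ap X α t ^ j = ∑ f ∈ W X j, cf α f * zz (Nf f) t := by
  rw [Ap_eq, Finset.sum_pow']
  refine sum_congr rfl fun f _ => ?_
  rw [prod_mul_distrib]
  unfold cf Nf
  rw [zz_prod]

theorem Vq_pow (X : ℕ) (α : ℕ → ℂ) (j : ℕ) : Vq X α ^ j = ∑ f ∈ W X j, w α f := by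
  unfold Vq
  rw [Finset.sum_pow']
  rfl

theorem Vq_nonneg (X : ℕ) (α : ℕ → ℂ) : 0 ≤ Vq X α := by
  unfold Vq
  exact sum_nonneg fun p _ => by positivity

theorem w_nonneg (α : ℕ → ℂ) {j : ℕ} (f : Fin j → ℕ) : 0 ≤ w α f :=
  prod_nonneg fun i _ => by positivity

theorem mem_W {X j : ℕ} {f : Fin j → ℕ} : f ∈ W X j ↔ ∀ i, f i ∈ P X := Fintype.mem_piFinset

theorem mem_P {X p : ℕ} : p ∈ P X ↔ p ≤ X ∧ p.Prime := by
  unfold P
  rw [mem_filter, mem_Icc]
  constructor
  · rintro ⟨⟨_, h⟩, h2⟩; exact ⟨h, h2⟩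
  · rintro ⟨h, h2⟩; exact ⟨⟨h2.one_lt.le, h⟩, h2⟩

theorem Nf_pos {X j : ℕ} {f : Fin j → ℕ} (hf : f ∈ W X j) : 0 < Nf f :=
  prod_pos fun i _ => (mem_P.mp (mem_W.mp hf i)).2.pos

theorem Nf_le {X j : ℕ} {f : Fin j → ℕ} (hf : f ∈ W X j) : Nf f ≤ X ^ j := by
  unfold Nf
  calc ∏ i, f i ≤ ∏ _i : Fin j, X := prod_le_prod' fun i _ => (mem_P.mp (mem_W.mp hf i)).1
    _ = X ^ j := by simp

/-- unique factorization -/
theorem perm_of_eq {X j l : ℕ} {f : Fin j → ℕ} {g : Fin l → ℕ} (hf : f ∈ W X j) (hg : g ∈ W X l)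
    (h : Nf f = Nf g) : (List.ofFn f).Perm (List.ofFn g) := by
  have h1 := Nat.primeFactorsList_unique (n := Nf f) (l := List.ofFn f) (by
    rw [List.prod_ofFn]; rfl) (by
    intro p hp
    obtain ⟨i, rfl⟩ := List.mem_ofFn.mp hp
    exact (mem_P.mp (mem_W.mp hf i)).2)
  have h2 := Nat.primeFactorsList_unique (n := Nf f) (l := List.ofFn g) (by
    rw [List.prod_ofFn, h]; rfl) (by
    intro p hp
    obtain ⟨i, rfl⟩ := List.mem_ofFn.mp hp
    exact (mem_P.mp (mem_W.mp hg i)).2)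
  exact h1.trans h2.symm

theorem len_eq {X j l : ℕ} {f : Fin j → ℕ} {g : Fin l → ℕ} (hf : f ∈ W X j) (hg : g ∈ W X l)
    (h : Nf f = Nf g) : j = l := by
  have := (perm_of_eq hf hg h).length_eq
  simpa using this

theorem cf_eq {X j l : ℕ} {f : Fin j → ℕ} {g : Fin l → ℕ} (α : ℕ → ℂ) (hf : f ∈ W X j)
    (hg : g ∈ W X l) (h : Nf f = Nf g) : cf α f = cf α g := by
  have h1 := ((perm_of_eq hf hg h).map α).prod_eq
  rw [List.map_ofFn, List.map_ofFn, List.prod_ofFn, List.prod_ofFn] at h1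
  exact h1

theorem exists_perm {X j : ℕ} {f g : Fin j → ℕ} (hf : f ∈ W X j)
    (hg : g ∈ W X j) (h : Nf f = Nf g) : ∃ σ : Equiv.Perm (Fin j), g = f ∘ σ := by
  have h1 := perm_of_eq hf hg h
  have h2 : f ∘ Tuple.sort f = g ∘ Tuple.sort g := by
    apply List.ofFn_injective
    exact List.Perm.eq_of_sortedLE (Tuple.monotone_sort f).sortedLE_ofFn
      (Tuple.monotone_sort g).sortedLE_ofFn
      (((Tuple.sort f).ofFn_comp_perm f).trans (h1.trans ((Tuple.sort g).ofFn_comp_perm g).symm))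
  refine ⟨(Tuple.sort g).symm.trans (Tuple.sort f), ?_⟩
  funext i
  have h3 := congrFun h2 ((Tuple.sort g).symm i)
  simp only [Function.comp_apply, Equiv.apply_symm_apply] at h3
  simp only [Function.comp_apply, Equiv.trans_apply]
  exact h3.symm

/-- the fibre -/
def rf (X : ℕ) {j : ℕ} (f : Fin j → ℕ) : ℕ := ((W X j).filter fun g => Nf f = Nf g).card

theorem rf_le {X j : ℕ} {f : Fin j → ℕ} (hf : f ∈ W X j) : rf X f ≤ j.factorial := by
  classical
  have hsub : ((W X j).filter fun g => Nf f = Nf g) ⊆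
      (univ : Finset (Equiv.Perm (Fin j))).image fun σ : Equiv.Perm (Fin j) => f ∘ ⇑σ := by
    intro g hg
    rw [mem_filter] at hg
    obtain ⟨σ, hσ⟩ := exists_perm hf hg.1 hg.2
    exact mem_image.mpr ⟨σ, mem_univ _, hσ.symm⟩
  unfold rf
  refine (card_le_card hsub).trans (card_image_le.trans ?_)
  rw [card_univ, Fintype.card_perm, Fintype.card_fin]

theorem rf_inj {X j : ℕ} {f : Fin j → ℕ} (hf : f ∈ W X j) (hi : Function.Injective f) :
    rf X f = j.factorial := by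
  classical
  refine le_antisymm (rf_le hf) ?_
  have hsub : (univ : Finset (Equiv.Perm (Fin j))).image
      (fun σ : Equiv.Perm (Fin j) => f ∘ ⇑σ) ⊆
      ((W X j).filter fun g => Nf f = Nf g) := by
    intro g hg
    obtain ⟨σ, _, rfl⟩ := mem_image.mp hg
    rw [mem_filter]
    refine ⟨mem_W.mpr fun i => mem_W.mp hf _, ?_⟩
    unfold Nf
    exact (Equiv.prod_comp σ f).symm
  have h1 := card_le_card hsub
  rw [card_image_of_injective, card_univ, Fintype.card_perm, Fintype.card_fin] at h1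
  · exact h1
  · intro σ τ h
    apply Equiv.ext
    intro i
    exact hi (congrFun h i)

/-- the diagonal -/
def Dg (X : ℕ) (α : ℕ → ℂ) (j l : ℕ) : ℂ :=
  ∑ f ∈ W X j, ∑ g ∈ W X l, if Nf f = Nf g then cf α f * (starRingEnd ℂ) (cf α g) / (Nf f : ℂ) else 0

theorem Dg_ne (X : ℕ) (α : ℕ → ℂ) {j l : ℕ} (h : j ≠ l) : Dg X α j l = 0 := by
  refine sum_eq_zero fun f hf => sum_eq_zero fun g hg => ?_
  rw [if_neg]
  intro he
  exact h (len_eq hf hg he)

theorem w_eq (α : ℕ → ℂ) {j : ℕ} (f : Fin j → ℕ) : (w α f : ℂ) =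
    cf α f * (starRingEnd ℂ) (cf α f) / (Nf f : ℂ) := by
  unfold w cf Nf
  rw [Complex.mul_conj, Complex.normSq_eq_norm_sq, norm_prod, ← prod_pow]
  push_cast
  rw [prod_div_distrib]

theorem Dg_self (X : ℕ) (α : ℕ → ℂ) (j : ℕ) :
    Dg X α j j = ((∑ f ∈ W X j, w α f * rf X f : ℝ) : ℂ) := by
  unfold Dg
  push_cast
  refine sum_congr rfl fun f hf => ?_
  rw [← sum_filter]
  have : ∀ g ∈ (W X j).filter (fun g => Nf f = Nf g),
      cf α f * (starRingEnd ℂ) (cf α g) / (Nf f : ℂ) = (w α f : ℂ) := by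
    intro g hg
    rw [mem_filter] at hg
    rw [← cf_eq α hf hg.1 hg.2, w_eq]
  rw [sum_congr rfl this, sum_const, nsmul_eq_mul, mul_comm]
  rfl

theorem w_eq' (α : ℕ → ℂ) {j : ℕ} (f : Fin j → ℕ) : w α f = ‖cf α f‖ ^ 2 / (Nf f : ℝ) := by
  unfold w cf Nf
  rw [norm_prod, ← prod_pow]
  push_cast
  rw [prod_div_distrib]

theorem sum_coinc (X : ℕ) (α : ℕ → ℂ) (hα : ∀ p, ‖α p‖ ≤ 1) {j : ℕ} (a b : Fin j) (hab : a ≠ b) :
    ∑ f ∈ (W X j).filter (fun f => f a = f b), w α f ≤ Vq X α ^ (j - 1) := by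
  classical
  obtain ⟨l, rfl⟩ : ∃ l, j = l + 1 := ⟨j - 1, by have := a.2; omega⟩
  rw [Nat.add_sub_cancel, Vq_pow]
  have h1 : ∀ f ∈ (W X (l + 1)).filter (fun f => f a = f b), w α f ≤ w α (b.removeNth f) := by
    intro f hf
    rw [mem_filter] at hf
    have h2 : w α f = ‖α (f b)‖ ^ 2 / (f b : ℝ) * w α (b.removeNth f) := by
      unfold w
      rw [Fin.prod_univ_succAbove _ b]
      rfl
    rw [h2]
    refine mul_le_of_le_one_left (w_nonneg α _) ?_
    have h3 : (1 : ℝ) ≤ (f b : ℝ) := by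
      exact_mod_cast (mem_P.mp (mem_W.mp hf.1 b)).2.one_lt.le
    rw [div_le_one (by linarith)]
    have h4 := hα (f b)
    have h5 := norm_nonneg (α (f b))
    nlinarith
  refine (sum_le_sum h1).trans ?_
  have hinj : Set.InjOn (fun f : Fin (l + 1) → ℕ => b.removeNth f)
      ((W X (l + 1)).filter (fun f => f a = f b) : Set (Fin (l + 1) → ℕ)) := by
    intro f hf g hg h
    rw [mem_coe, mem_filter] at hf hg
    obtain ⟨i, hi⟩ := Fin.exists_succAbove_eq hab
    have hne : ∀ i, f (b.succAbove i) = g (b.succAbove i) := fun i => congrFun h i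
    funext c
    by_cases hc : c = b
    · rw [hc, ← hf.2, ← hg.2, ← hi]
      exact hne i
    · obtain ⟨i', hi'⟩ := Fin.exists_succAbove_eq hc
      rw [← hi']
      exact hne i'
  rw [← sum_image (f := fun h => w α h) hinj]
  refine sum_le_sum_of_subset_of_nonneg ?_ fun h _ _ => w_nonneg α h
  intro h hh
  obtain ⟨f, hf, rfl⟩ := mem_image.mp hh
  rw [mem_filter] at hf
  exact mem_W.mpr fun i => mem_W.mp hf.1 _

theorem Dk_le (X : ℕ) (α : ℕ → ℂ) (j : ℕ) :
    ∑ f ∈ W X j, w α f * rf X f ≤ (j.factorial : ℝ) * Vq X α ^ j := by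
  rw [Vq_pow, mul_sum]
  refine sum_le_sum fun f hf => ?_
  rw [mul_comm]
  exact mul_le_mul_of_nonneg_right (by exact_mod_cast rf_le hf) (w_nonneg α f)

theorem Dk_ge (X : ℕ) (α : ℕ → ℂ) (hα : ∀ p, ‖α p‖ ≤ 1) (j : ℕ) :
    (j.factorial : ℝ) * Vq X α ^ j - ∑ f ∈ W X j, w α f * rf X f ≤
      (j.factorial : ℝ) * (j : ℝ) ^ 2 * Vq X α ^ (j - 1) := by
  classical
  rw [Vq_pow, mul_sum, ← sum_sub_distrib]
  have h1 : ∀ f ∈ W X j, (j.factorial : ℝ) * w α f - w α f * rf X f ≤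
      ∑ q ∈ (univ : Finset (Fin j)).offDiag,
        (if f q.1 = f q.2 then (j.factorial : ℝ) * w α f else 0) := by
    intro f hf
    have hw := w_nonneg α f
    by_cases hi : Function.Injective f
    · rw [rf_inj hf hi]
      refine le_trans (le_of_eq (by ring)) (sum_nonneg fun q _ => ?_)
      split_ifs
      · positivity
      · exact le_rfl
    · rw [Function.Injective] at hi
      push Not at hi
      obtain ⟨a, b, hab, hne⟩ := hi
      have h2 : (j.factorial : ℝ) * w α f - w α f * rf X f ≤ (j.factorial : ℝ) * w α f := by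
        have : 0 ≤ w α f * rf X f := by positivity
        linarith
      refine h2.trans ?_
      have hm : (a, b) ∈ (univ : Finset (Fin j)).offDiag :=
        mem_offDiag.mpr ⟨mem_univ a, mem_univ b, hne⟩
      have h3 := single_le_sum (s := (univ : Finset (Fin j)).offDiag)
        (f := fun q : Fin j × Fin j => if f q.1 = f q.2 then (j.factorial : ℝ) * w α f else 0)
        (fun q _ => by
          split_ifs
          · positivity
          · exact le_rfl) hm
      simpa [hab] using h3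
  refine (sum_le_sum h1).trans ?_
  rw [sum_comm]
  have h2 : ∀ q ∈ (univ : Finset (Fin j)).offDiag, ∑ f ∈ W X j,
      (if f q.1 = f q.2 then (j.factorial : ℝ) * w α f else 0)
      ≤ (j.factorial : ℝ) * Vq X α ^ (j - 1) := by
    intro q hq
    rw [← sum_filter, ← mul_sum]
    exact mul_le_mul_of_nonneg_left (sum_coinc X α hα q.1 q.2 (mem_offDiag.mp hq).2.2)
      (by positivity)
  refine (sum_le_card_nsmul _ _ _ h2).trans ?_
  rw [nsmul_eq_mul]
  have h3 : (((univ : Finset (Fin j)).offDiag.card : ℕ) : ℝ) ≤ (j : ℝ) ^ 2 := by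
    rw [offDiag_card, card_univ, Fintype.card_fin]
    have : j * j - j ≤ j ^ 2 := by
      rw [pow_two]; exact Nat.sub_le _ _
    exact_mod_cast this
  have h4 : 0 ≤ (j.factorial : ℝ) * Vq X α ^ (j - 1) := by
    have := Vq_nonneg X α
    positivity
  calc _ ≤ (j : ℝ) ^ 2 * ((j.factorial : ℝ) * Vq X α ^ (j - 1)) :=
        mul_le_mul_of_nonneg_right h3 h4
    _ = _ := by ring

/-- the coefficients of the power -/
def bc (X : ℕ) (α : ℕ → ℂ) (j n : ℕ) : ℂ := ∑ f ∈ (W X j).filter (fun f => Nf f = n), cf α f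

theorem pow_eq_bc (X : ℕ) (α : ℕ → ℂ) (j : ℕ) (t : ℝ) :
    Ap X α t ^ j = ∑ n ∈ Finset.Icc 1 (X ^ j), bc X α j n * zz n t := by
  rw [Ap_pow, ← sum_fiberwise_of_maps_to (s := W X j) (t := Finset.Icc 1 (X ^ j)) (g := Nf)
    (fun f hf => mem_Icc.mpr ⟨Nf_pos hf, Nf_le hf⟩)]
  refine sum_congr rfl fun n _ => ?_
  unfold bc
  rw [sum_mul]
  refine sum_congr rfl fun f hf => ?_
  rw [(mem_filter.mp hf).2]

theorem bc_sum (X : ℕ) (α : ℕ → ℂ) (j : ℕ) :
    ∑ n ∈ Finset.Icc 1 (X ^ j), ‖bc X α j n‖ ^ 2 / n ≤ (j.factorial : ℝ) * Vq X α ^ j := by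
  refine le_trans ?_ (Dk_le X α j)
  rw [← sum_fiberwise_of_maps_to (s := W X j) (t := Finset.Icc 1 (X ^ j)) (g := Nf)
    (fun f hf => mem_Icc.mpr ⟨Nf_pos hf, Nf_le hf⟩)]
  refine sum_le_sum fun n hn => ?_
  have hn1 : (0 : ℝ) < n := by exact_mod_cast (mem_Icc.mp hn).1
  have h1 : ∀ f ∈ (W X j).filter (fun f => Nf f = n), w α f * rf X f =
      ((((W X j).filter (fun f => Nf f = n)).card : ℕ) : ℝ) * (‖cf α f‖ ^ 2 / n) := by
    intro f hf
    have h2 := (mem_filter.mp hf).2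
    have h3 : rf X f = ((W X j).filter (fun f => Nf f = n)).card := by
      unfold rf
      rw [h2]
      congr 1
      ext g
      simp only [mem_filter]
      constructor
      · rintro ⟨a, b⟩; exact ⟨a, b.symm⟩
      · rintro ⟨a, b⟩; exact ⟨a, b.symm⟩
    rw [h3, w_eq', h2, mul_comm]
  rw [sum_congr rfl h1, ← mul_sum, ← sum_div, ← mul_div_assoc]
  refine div_le_div_of_nonneg_right ?_ hn1.le
  unfold bc
  have h4 : ‖∑ f ∈ (W X j).filter (fun f => Nf f = n), cf α f‖ ≤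
      ∑ f ∈ (W X j).filter (fun f => Nf f = n), ‖cf α f‖ := norm_sum_le _ _
  have h5 : (∑ f ∈ (W X j).filter (fun f => Nf f = n), ‖cf α f‖) ^ 2 ≤
      ((((W X j).filter (fun f => Nf f = n)).card : ℕ) : ℝ) *
        ∑ f ∈ (W X j).filter (fun f => Nf f = n), ‖cf α f‖ ^ 2 := sq_sum_le_card_mul_sum_sq
  refine le_trans ?_ h5
  exact pow_le_pow_left₀ (norm_nonneg _) h4 2

/-! ### the integrals -/

theorem zz_eq {n : ℕ} (hn : 0 < n) (t : ℝ) :
    zz n t = cexp (-(Real.log n : ℂ) / 2 + (-(I * Real.log n)) * t) := by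
  unfold zz
  rw [cpow_def_of_ne_zero (by exact_mod_cast hn.ne'), natCast_log]
  congr 1
  ring

theorem zz_conj {n : ℕ} (hn : 0 < n) (t : ℝ) :
    (starRingEnd ℂ) (zz n t) = cexp (-(Real.log n : ℂ) / 2 + (I * Real.log n) * t) := by
  rw [zz_eq hn, ← exp_conj]
  congr 1
  simp only [map_add, map_mul, map_neg, map_div₀, conj_ofReal, conj_I, map_ofNat]
  ring

theorem zz_pair {a b : ℕ} (ha : 0 < a) (hb : 0 < b) (t : ℝ) :
    zz a t * (starRingEnd ℂ) (zz b t) = cexp (-((Real.log a + Real.log b : ℝ) : ℂ) / 2) *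
      cexp ((((Real.log b - Real.log a : ℝ) : ℂ) * I) * t) := by
  rw [zz_eq ha, zz_conj hb, ← exp_add, ← exp_add]
  congr 1
  push_cast
  ring

/-- the integral of a pair -/
def M (T : ℝ) (a b : ℕ) : ℂ := ∫ t in T..(2 * T), zz a t * (starRingEnd ℂ) (zz b t)

theorem M_self (T : ℝ) {a : ℕ} (ha : 0 < a) : M T a a = (T : ℂ) / (a : ℂ) := by
  unfold M
  have h : ∀ t : ℝ, zz a t * (starRingEnd ℂ) (zz a t) = ((1 / (a : ℝ) : ℝ) : ℂ) := by
    intro t
    rw [zz_pair ha ha, sub_self]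
    have h1 : -((Real.log a + Real.log a : ℝ) : ℂ) / 2 = ((-Real.log a : ℝ) : ℂ) := by
      push_cast; ring
    rw [h1, ← ofReal_exp, Real.exp_neg, Real.exp_log (by exact_mod_cast ha)]
    simp
  simp only [h]
  rw [intervalIntegral.integral_const]
  push_cast
  rw [real_smul]
  push_cast
  ring

theorem M_ne (T : ℝ) {a b B : ℕ} (ha : 0 < a) (hb : 0 < b) (hab : a ≠ b) (haB : a ≤ B)
    (hbB : b ≤ B) : ‖M T a b‖ ≤ 2 * B := by
  have key : ∀ a b : ℕ, 0 < a → a < b → b ≤ B → (1 : ℝ) / B ≤ Real.log b - Real.log a := by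
    intro a b ha hab hbB
    have ha' : (0 : ℝ) < a := by exact_mod_cast ha
    have hb' : (0 : ℝ) < b := by exact_mod_cast ha.trans hab
    rw [← Real.log_div hb'.ne' ha'.ne']
    have h1 := Real.one_sub_inv_le_log_of_pos (div_pos hb' ha')
    have h2 : (1 : ℝ) / B ≤ 1 - ((b : ℝ) / a)⁻¹ := by
      rw [inv_div]
      have h3 : (1 : ℝ) - a / b = (b - a) / b := by
        rw [sub_div, div_self hb'.ne']
      rw [h3]
      have h4 : (a : ℝ) + 1 ≤ b := by exact_mod_cast hab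
      have h5 : (b : ℝ) ≤ B := by exact_mod_cast hbB
      calc (1 : ℝ) / B ≤ 1 / b := one_div_le_one_div_of_le hb' h5
        _ ≤ (b - a) / b := div_le_div_of_nonneg_right (by linarith) hb'.le
    linarith
  have hB : (0 : ℝ) < B := by exact_mod_cast ha.trans_le haB
  have hd : (1 : ℝ) / B ≤ |Real.log b - Real.log a| := by
    rcases lt_or_gt_of_ne hab with h | h
    · exact (key a b ha h hbB).trans (le_abs_self _)
    · rw [abs_sub_comm]
      exact (key b a hb h haB).trans (le_abs_self _)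
  have hd0 : 0 < |Real.log b - Real.log a| := lt_of_lt_of_le (by positivity) hd
  unfold M
  simp only [zz_pair ha hb]
  rw [intervalIntegral.integral_const_mul]
  have hc : (((Real.log b - Real.log a : ℝ) : ℂ) * I) ≠ 0 := by
    refine mul_ne_zero ?_ I_ne_zero
    rw [Ne, ofReal_eq_zero]
    exact abs_pos.mp hd0
  rw [integral_exp_mul_complex hc, norm_mul, norm_div]
  have h1 : ‖cexp (-((Real.log a + Real.log b : ℝ) : ℂ) / 2)‖ ≤ 1 := by
    rw [norm_exp]
    have : (-((Real.log a + Real.log b : ℝ) : ℂ) / 2).re = -(Real.log a + Real.log b) / 2 := by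
      have e : (-((Real.log a + Real.log b : ℝ) : ℂ) / 2)
          = ((-(Real.log a + Real.log b) / 2 : ℝ) : ℂ) := by push_cast; ring
      rw [e, ofReal_re]
    rw [this, Real.exp_le_one_iff]
    have l1 := Real.log_natCast_nonneg a
    have l2 := Real.log_natCast_nonneg b
    linarith
  have h2 : ∀ s : ℝ, ‖cexp ((((Real.log b - Real.log a : ℝ) : ℂ) * I) * s)‖ = 1 := by
    intro s
    have e : (((Real.log b - Real.log a : ℝ) : ℂ) * I) * s
        = (((Real.log b - Real.log a) * s : ℝ) : ℂ) * I := by push_cast; ring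
    rw [e, norm_exp_ofReal_mul_I]
  have h3 : ‖cexp ((((Real.log b - Real.log a : ℝ) : ℂ) * I) * ((2 * T : ℝ) : ℂ)) -
      cexp ((((Real.log b - Real.log a : ℝ) : ℂ) * I) * (T : ℂ))‖ ≤ 2 := by
    refine (norm_sub_le _ _).trans ?_
    rw [h2, h2]
    norm_num
  have h4 : ‖(((Real.log b - Real.log a : ℝ) : ℂ) * I)‖ = |Real.log b - Real.log a| := by
    rw [norm_mul, norm_I, mul_one, norm_real, Real.norm_eq_abs]
  rw [h4]
  have h5 : ‖cexp ((((Real.log b - Real.log a : ℝ) : ℂ) * I) * ((2 * T : ℝ) : ℂ)) -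
      cexp ((((Real.log b - Real.log a : ℝ) : ℂ) * I) * (T : ℂ))‖ / |Real.log b - Real.log a|
      ≤ 2 * B := by
    rw [div_le_iff₀ hd0]
    have : 2 ≤ 2 * B * |Real.log b - Real.log a| := by
      have := mul_le_mul_of_nonneg_left hd (show (0 : ℝ) ≤ 2 * B by positivity)
      rw [mul_one_div, mul_div_assoc, div_self hB.ne', mul_one] at this
      exact this
    exact h3.trans this
  calc _ ≤ 1 * (2 * (B : ℝ)) := mul_le_mul h1 h5 (by positivity) (by norm_num)
    _ = 2 * B := one_mul _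

theorem zz_cont {n : ℕ} (hn : 0 < n) : Continuous fun t : ℝ => zz n t := by
  simp only [zz_eq hn]
  fun_prop

theorem Ap_cont (X : ℕ) (α : ℕ → ℂ) : Continuous fun t : ℝ => Ap X α t := by
  simp only [Ap_eq]
  refine continuous_finsetSum _ fun p hp => ?_
  exact continuous_const.mul (zz_cont (mem_P.mp hp).2.pos)

theorem conj_cont (X : ℕ) (α : ℕ → ℂ) : Continuous fun t : ℝ => (starRingEnd ℂ) (Ap X α t) :=
  continuous_conj.comp (Ap_cont X α)

theorem cf_norm (α : ℕ → ℂ) (hα : ∀ p, ‖α p‖ ≤ 1) {j : ℕ} (f : Fin j → ℕ) : ‖cf α f‖ ≤ 1 := by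
  unfold cf
  rw [norm_prod]
  exact prod_le_one (fun i _ => norm_nonneg _) fun i _ => hα _

theorem int_pow (X : ℕ) (α : ℕ → ℂ) (T : ℝ) (j l : ℕ) :
    (∫ t in T..(2 * T), Ap X α t ^ j * (starRingEnd ℂ) (Ap X α t) ^ l) =
      ∑ f ∈ W X j, ∑ g ∈ W X l, cf α f * (starRingEnd ℂ) (cf α g) * M T (Nf f) (Nf g) := by
  have h1 : ∀ t : ℝ, Ap X α t ^ j * (starRingEnd ℂ) (Ap X α t) ^ l =
      ∑ f ∈ W X j, ∑ g ∈ W X l, cf α f * (starRingEnd ℂ) (cf α g) *
        (zz (Nf f) t * (starRingEnd ℂ) (zz (Nf g) t)) := by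
    intro t
    rw [← map_pow, Ap_pow, Ap_pow, map_sum, sum_mul_sum]
    refine sum_congr rfl fun f _ => sum_congr rfl fun g _ => ?_
    rw [map_mul]
    ring
  simp only [h1]
  have hc : ∀ f ∈ W X j, ∀ g ∈ W X l, Continuous fun t : ℝ =>
      cf α f * (starRingEnd ℂ) (cf α g) * (zz (Nf f) t * (starRingEnd ℂ) (zz (Nf g) t)) := by
    intro f hf g hg
    exact continuous_const.mul ((zz_cont (Nf_pos hf)).mul
      (continuous_conj.comp (zz_cont (Nf_pos hg))))
  rw [intervalIntegral.integral_finsetSum]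
  · refine sum_congr rfl fun f hf => ?_
    rw [intervalIntegral.integral_finsetSum]
    · refine sum_congr rfl fun g hg => ?_
      rw [intervalIntegral.integral_const_mul]
      rfl
    · intro g hg
      exact (hc f hf g hg).intervalIntegrable _ _
  · intro f hf
    exact (continuous_finsetSum _ fun g hg => hc f hf g hg).intervalIntegrable _ _

theorem card_W (X j Y : ℕ) (hX : X ≤ Y) : (W X j).card ≤ Y ^ j := by
  unfold W
  rw [Fintype.card_piFinset]
  have h : (P X).card ≤ Y := by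
    unfold P
    refine (card_filter_le _ _).trans ?_
    rw [Nat.card_Icc]
    omega
  calc ∏ _i : Fin j, (P X).card ≤ ∏ _i : Fin j, Y := prod_le_prod' fun _ _ => h
    _ = Y ^ j := by simp

theorem int_est (X : ℕ) (α : ℕ → ℂ) (hα : ∀ p, ‖α p‖ ≤ 1) (T : ℝ) (Y : ℕ) (hX : X ≤ Y)
    (hY : 1 ≤ Y) (j l : ℕ) :
    ‖(∫ t in T..(2 * T), Ap X α t ^ j * (starRingEnd ℂ) (Ap X α t) ^ l) - T * Dg X α j l‖ ≤
      2 * (Y : ℝ) ^ (2 * (j + l)) := by
  rw [int_pow]
  unfold Dg
  rw [mul_sum, ← sum_sub_distrib]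
  have h1 : ∀ f ∈ W X j, ‖∑ g ∈ W X l, cf α f * (starRingEnd ℂ) (cf α g) * M T (Nf f) (Nf g) -
      T * ∑ g ∈ W X l, (if Nf f = Nf g then cf α f * (starRingEnd ℂ) (cf α g) / (Nf f : ℂ)
        else 0)‖ ≤ (Y : ℝ) ^ l * (2 * (Y : ℝ) ^ (j + l)) := by
    intro f hf
    rw [mul_sum, ← sum_sub_distrib]
    have h2 : ∀ g ∈ W X l, ‖cf α f * (starRingEnd ℂ) (cf α g) * M T (Nf f) (Nf g) -
        T * (if Nf f = Nf g then cf α f * (starRingEnd ℂ) (cf α g) / (Nf f : ℂ) else 0)‖ ≤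
        2 * (Y : ℝ) ^ (j + l) := by
      intro g hg
      by_cases he : Nf f = Nf g
      · rw [if_pos he, ← he, M_self T (Nf_pos hf)]
        have : cf α f * (starRingEnd ℂ) (cf α g) * ((T : ℂ) / (Nf f : ℂ)) -
            T * (cf α f * (starRingEnd ℂ) (cf α g) / (Nf f : ℂ)) = 0 := by ring
        rw [this, norm_zero]
        positivity
      · rw [if_neg he, mul_zero, sub_zero, norm_mul, norm_mul, RCLike.norm_conj]
        have b1 : Nf f ≤ Y ^ (j + l) := (Nf_le hf).trans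
          ((Nat.pow_le_pow_left hX j).trans (Nat.pow_le_pow_right hY (by omega)))
        have b2 : Nf g ≤ Y ^ (j + l) := (Nf_le hg).trans
          ((Nat.pow_le_pow_left hX l).trans (Nat.pow_le_pow_right hY (by omega)))
        have h3 := M_ne T (Nf_pos hf) (Nf_pos hg) he b1 b2
        push_cast at h3
        have h4 : ‖cf α f‖ * ‖cf α g‖ ≤ 1 :=
          mul_le_one₀ (cf_norm α hα f) (norm_nonneg _) (cf_norm α hα g)
        calc _ ≤ 1 * (2 * (Y : ℝ) ^ (j + l)) := mul_le_mul h4 h3 (norm_nonneg _) (by norm_num)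
          _ = _ := one_mul _
    refine (norm_sum_le _ _).trans ((sum_le_card_nsmul _ _ _ h2).trans ?_)
    rw [nsmul_eq_mul]
    refine mul_le_mul_of_nonneg_right ?_ (by positivity)
    exact_mod_cast card_W X l Y hX
  refine (norm_sum_le _ _).trans ((sum_le_card_nsmul _ _ _ h1).trans ?_)
  rw [nsmul_eq_mul]
  have h5 : (((W X j).card : ℕ) : ℝ) ≤ (Y : ℝ) ^ j := by exact_mod_cast card_W X j Y hX
  calc _ ≤ (Y : ℝ) ^ j * ((Y : ℝ) ^ l * (2 * (Y : ℝ) ^ (j + l))) :=
        mul_le_mul_of_nonneg_right h5 (by positivity)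
    _ = _ := by ring

theorem im_pow (X : ℕ) (α : ℕ → ℂ) (t : ℝ) (m : ℕ) :
    (((Ap X α t).im ^ m : ℝ) : ℂ) = ((2 * I) ^ m)⁻¹ * ∑ j ∈ range (m + 1),
      (-1) ^ (m - j) * (m.choose j : ℂ) *
        (Ap X α t ^ j * (starRingEnd ℂ) (Ap X α t) ^ (m - j)) := by
  have h1 : ((Ap X α t).im : ℂ) = (2 * I)⁻¹ * (Ap X α t + -(starRingEnd ℂ) (Ap X α t)) := by
    rw [im_eq_sub_conj]
    field_simp
    ring
  rw [ofReal_pow, h1, mul_pow, inv_pow, add_pow]
  congr 1
  refine sum_congr rfl fun j _ => ?_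
  rw [neg_pow]
  ring

theorem im_est (X : ℕ) (α : ℕ → ℂ) (hα : ∀ p, ‖α p‖ ≤ 1) (T : ℝ) (Y : ℕ) (hX : X ≤ Y)
    (hY : 1 ≤ Y) (m : ℕ) :
    ‖((∫ t in T..(2 * T), (Ap X α t).im ^ m : ℝ) : ℂ) - ((2 * I) ^ m)⁻¹ *
      ∑ j ∈ range (m + 1), (-1) ^ (m - j) * (m.choose j : ℂ) * (T * Dg X α j (m - j))‖
      ≤ 2 * (Y : ℝ) ^ (2 * m) := by
  rw [← intervalIntegral.integral_ofReal]
  simp only [im_pow]
  rw [intervalIntegral.integral_const_mul, intervalIntegral.integral_finsetSum]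
  · rw [← mul_sub, ← sum_sub_distrib, norm_mul, norm_inv, norm_pow, norm_mul, norm_I, mul_one]
    have h1 : ∀ j ∈ range (m + 1), ‖(∫ t in T..(2 * T), (-1 : ℂ) ^ (m - j) * (m.choose j : ℂ) *
        (Ap X α t ^ j * (starRingEnd ℂ) (Ap X α t) ^ (m - j))) -
        (-1) ^ (m - j) * (m.choose j : ℂ) * (T * Dg X α j (m - j))‖ ≤
        (m.choose j : ℝ) * (2 * (Y : ℝ) ^ (2 * m)) := by
      intro j hj
      rw [intervalIntegral.integral_const_mul, ← mul_sub, norm_mul, norm_mul, norm_pow, norm_neg,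
        norm_one, one_pow, one_mul]
      have hn : ‖(m.choose j : ℂ)‖ = (m.choose j : ℝ) := by simp
      rw [hn]
      refine mul_le_mul_of_nonneg_left ?_ (by positivity)
      have h2 := int_est X α hα T Y hX hY j (m - j)
      rw [show j + (m - j) = m by have := mem_range.mp hj; omega] at h2
      exact h2
    have h3 : ‖(2 : ℂ)‖ = 2 := by simp
    rw [h3]
    have h4 : ∑ j ∈ range (m + 1), (m.choose j : ℝ) * (2 * (Y : ℝ) ^ (2 * m))
        = 2 ^ m * (2 * (Y : ℝ) ^ (2 * m)) := by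
      rw [← sum_mul]
      congr 1
      exact_mod_cast Nat.sum_range_choose m
    calc _ ≤ ((2 : ℝ) ^ m)⁻¹ * (2 ^ m * (2 * (Y : ℝ) ^ (2 * m))) := by
          refine mul_le_mul_of_nonneg_left ?_ (by positivity)
          rw [← h4]
          exact (norm_sum_le _ _).trans (sum_le_sum h1)
      _ = _ := by
          rw [← mul_assoc, inv_mul_cancel₀ (by positivity), one_mul]
  · intro j _
    exact (continuous_const.mul (((Ap_cont X α).pow j).mul
      ((conj_cont X α).pow (m - j)))).intervalIntegrable _ _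

theorem t_PM : S_PM := by
  intro k
  refine ⟨2 + (k.factorial : ℝ) * (k : ℝ) ^ 2, by positivity, ?_⟩
  intro T X α hT hXT hα
  have hV := Vq_nonneg X α
  have hT0 : 0 < T := by linarith
  have hYT : ((max 1 X : ℕ) : ℝ) ^ (8 * k + 8) ≤ T := by
    rcases le_total 1 X with h | h
    · rw [max_eq_right h]; exact hXT
    · rw [max_eq_left h]; simp; linarith
  have hY1 : (1 : ℝ) ≤ ((max 1 X : ℕ) : ℝ) := by exact_mod_cast le_max_left 1 X
  have hsm : ∀ m, m ≤ 2 * k + 1 → 2 * ((max 1 X : ℕ) : ℝ) ^ (2 * m) ≤ 2 * T := by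
    intro m hm
    have : ((max 1 X : ℕ) : ℝ) ^ (2 * m) ≤ ((max 1 X : ℕ) : ℝ) ^ (8 * k + 8) :=
      pow_le_pow_right₀ hY1 (by omega)
    linarith
  refine ⟨?_, ?_, ?_⟩
  · have h1 := im_est X α hα T (max 1 X) (le_max_right 1 X) (le_max_left 1 X) (2 * k)
    rw [sum_eq_single k] at h1
    · have h2 : ((2 * I) ^ (2 * k))⁻¹ * ((-1) ^ (2 * k - k) * ((2 * k).choose k : ℂ) *
          (T * Dg X α k (2 * k - k))) =
          ((((2 * k).choose k : ℝ) / 4 ^ k * (T * ∑ f ∈ W X k, w α f * rf X f) : ℝ) : ℂ) := by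
        rw [show 2 * k - k = k by omega, Dg_self, pow_mul, mul_pow, I_sq]
        push_cast
        rw [mul_pow, mul_inv]
        have h3 : ((-1 : ℂ) ^ k)⁻¹ * (-1) ^ k = 1 := inv_mul_cancel₀ (by simp)
        have h4 : ((2 : ℂ) ^ 2) ^ k = 4 ^ k := by norm_num
        rw [h4]
        linear_combination ((4 : ℂ) ^ k)⁻¹ * ((2 * k).choose k : ℂ) *
          (T * ∑ f ∈ W X k, (w α f : ℂ) * (rf X f : ℂ)) * h3
      rw [h2, ← ofReal_sub, norm_real, Real.norm_eq_abs] at h1
      have h5 := h1.trans (hsm (2 * k) (by omega))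
      have h6 := Dk_le X α k
      have h7 := Dk_ge X α hα k
      have hc : (((2 * k).factorial : ℝ) / ((k.factorial : ℝ) * 4 ^ k)) =
          ((2 * k).choose k : ℝ) / 4 ^ k * (k.factorial : ℝ) := by
        have h8 : ((2 * k).choose k : ℝ) * (k.factorial : ℝ) * (k.factorial : ℝ)
            = ((2 * k).factorial : ℝ) := by
          have := Nat.choose_mul_factorial_mul_factorial (show k ≤ 2 * k by omega)
          rw [show 2 * k - k = k by omega] at this
          exact_mod_cast this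
        have h9 : (k.factorial : ℝ) ≠ 0 := by positivity
        rw [← h8]
        field_simp
      have hc1 : ((2 * k).choose k : ℝ) / 4 ^ k ≤ 1 := by
        rw [div_le_one (by positivity)]
        have : (2 * k).choose k ≤ 4 ^ k := by
          have := Nat.choose_le_two_pow (2 * k) k
          rw [pow_mul] at this
          exact this
        exact_mod_cast this
      have hc0 : 0 ≤ ((2 * k).choose k : ℝ) / 4 ^ k := by positivity
      have hpow : Vq X α ^ (k - 1) ≤ (1 + Vq X α) ^ (k - 1) :=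
        pow_le_pow_left₀ hV (by linarith) _
      have hpow1 : 1 ≤ (1 + Vq X α) ^ (k - 1) := one_le_pow₀ (by linarith)
      have hpow0 : 0 ≤ Vq X α ^ (k - 1) := by positivity
      rw [hc]
      have e : (∫ t in T..(2 * T), (Ap X α t).im ^ (2 * k)) -
          T * (((2 * k).choose k : ℝ) / 4 ^ k * (k.factorial : ℝ)) * Vq X α ^ k =
          ((∫ t in T..(2 * T), (Ap X α t).im ^ (2 * k)) -
            ((2 * k).choose k : ℝ) / 4 ^ k * (T * ∑ f ∈ W X k, w α f * rf X f)) -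
          ((2 * k).choose k : ℝ) / 4 ^ k * T *
            ((k.factorial : ℝ) * Vq X α ^ k - ∑ f ∈ W X k, w α f * rf X f) := by ring
      rw [e]
      have h10 : |((2 * k).choose k : ℝ) / 4 ^ k * T *
            ((k.factorial : ℝ) * Vq X α ^ k - ∑ f ∈ W X k, w α f * rf X f)| ≤
          T * ((k.factorial : ℝ) * (k : ℝ) ^ 2 * (1 + Vq X α) ^ (k - 1)) := by
        have h11 : 0 ≤ (k.factorial : ℝ) * Vq X α ^ k - ∑ f ∈ W X k, w α f * rf X f := by
          linarith
        rw [abs_of_nonneg (by positivity)]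
        have h12 : (k.factorial : ℝ) * Vq X α ^ k - ∑ f ∈ W X k, w α f * rf X f ≤
            (k.factorial : ℝ) * (k : ℝ) ^ 2 * (1 + Vq X α) ^ (k - 1) :=
          h7.trans (mul_le_mul_of_nonneg_left hpow (by positivity))
        have h13 : ((2 * k).choose k : ℝ) / 4 ^ k * T ≤ T := mul_le_of_le_one_left hT0.le hc1
        exact mul_le_mul h13 h12 h11 hT0.le
      refine (abs_sub _ _).trans ((add_le_add h5 h10).trans ?_)
      nlinarith [mul_le_mul_of_nonneg_left hpow1 hT0.le]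
    · intro j hj hjk
      rw [Dg_ne X α (show j ≠ 2 * k - j by have := mem_range.mp hj; omega), mul_zero, mul_zero]
    · intro h
      exact absurd (mem_range.mpr (by omega)) h
  · have h1 := im_est X α hα T (max 1 X) (le_max_right 1 X) (le_max_left 1 X) (2 * k + 1)
    rw [sum_eq_zero] at h1
    · rw [mul_zero, sub_zero, norm_real, Real.norm_eq_abs] at h1
      refine (h1.trans (hsm (2 * k + 1) le_rfl)).trans ?_
      refine mul_le_mul_of_nonneg_right ?_ hT0.le
      have : 0 ≤ (k.factorial : ℝ) * (k : ℝ) ^ 2 := by positivity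
      linarith
    · intro j hj
      rw [Dg_ne X α (show j ≠ 2 * k + 1 - j by have := mem_range.mp hj; omega), mul_zero,
        mul_zero]
  · intro j _
    exact ⟨bc X α j, fun t => pow_eq_bc X α j t, bc_sum X α j⟩

end

end Pool.Agent.U504.MV3.PM
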